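import Pool.Agent.Helper65.KF.Defs
import Pool.Agent.Helper20.MC.CF1

/-!
Backup of Rel.bound of Helper65/KF/Rl.lean (project KF, MP_277ac5_nt).
-/

namespace Pool.Agent.Helper43.KF

open Pool.Agent.Helper20 Pool.Agent.Helper20.MC Pool.Agent.Helper65.KF

theorem bound {t j : ℕ} (ht : 1 ≤ t) (h3 : ¬ 3 ∣ t) {p : ℤ × ℤ} {σ : ℤ} {y1 y2 : R}
    (hp : p ∈ Red 9 (g t)) (h : Rel t j p σ y1 y2)
    (h1 : (X t : ℝ) * Y t ≤ 909 / 400 * |(nm y1 : ℝ)|)
    (h2 : (X t : ℝ) * Y t ≤ 909 / 400 * |(nm y2 : ℝ)|) :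
    xv 9 (g t) p < 5 := by
  obtain ⟨hσ, hQ, hP, hY, hL1, hL2, hs⟩ := h
  obtain ⟨q1, -, q2, q3, q4⟩ := hp
  have hmr : (0 : ℝ) < (mm t : ℝ) := by exact_mod_cast mm_pos ht h3
  have hQr : (0 : ℝ) < (p.2 : ℝ) := by exact_mod_cast q1
  have hXr : (0 : ℝ) < X t := by exact_mod_cast X_pos t
  have hYr : (0 : ℝ) < Y t := by exact_mod_cast Y_pos ht
  have hf : 0 < (X t : ℝ) * Y t := mul_pos hXr hYr
  have hσ2 : σ * σ = 1 := by rcases hσ with rfl | rfl <;> norm_num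
  have hσr : (σ : ℝ) * σ = 1 := by exact_mod_cast hσ2
  obtain ⟨T, hT⟩ : ∃ T : ℝ, T = σ * (tr (y2 * star y1) : ℝ) := ⟨_, rfl⟩
  have hP' : (p.1 : ℝ) = 4 * mm t * T := by
    rw [hT, hP]
    push_cast
    ring
  have hQ' : (p.2 : ℝ) = 8 * mm t * |(nm y1 : ℝ)| := by
    have e1 : (p.2 : ℝ) = 8 * σ * mm t * (nm y1 : ℝ) := by
      rw [hQ]
      push_cast
      ring
    rw [← abs_of_pos hQr, e1, abs_mul, abs_mul, abs_mul, abs_of_pos hmr]
    rcases hσ with rfl | rfl <;> norm_num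
  have hb : bb 9 (g t) = 4 * mm t * ((X t : ℝ) * Y t * sr) := by
    rw [bb_eq, Y_two_mul]
    push_cast
    ring
  have hnorm : T ^ 2 - 5 * ((X t : ℝ) * Y t) ^ 2 = 4 * ((nm y1 : ℝ) * (nm y2 : ℝ)) := by
    have e1 := four_nm (y2 * star y1)
    rw [nm_mul, nm_star] at e1
    have e2 : (X t * Y t) ^ 2 = (y2 * star y1).im ^ 2 := by
      rw [← Y_two_mul, hY]
      linear_combination ((y2 * star y1).im ^ 2) * hσ2
    have e3 : (tr (y2 * star y1)) ^ 2 - 5 * (X t * Y t) ^ 2 = 4 * (nm y1 * nm y2) := by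
      rw [e2]
      linarith
    have e4 : ((tr (y2 * star y1) : ℤ) : ℝ) ^ 2 - 5 * ((X t : ℝ) * Y t) ^ 2 =
        4 * ((nm y1 : ℝ) * (nm y2 : ℝ)) := by exact_mod_cast e3
    rw [hT]
    linear_combination e4 + ((tr (y2 * star y1) : ℤ) : ℝ) ^ 2 * hσr
  set f : ℝ := (X t : ℝ) * Y t with hfd
  have hs1 := sr_lt
  have hs2 := sr_mul_self
  have hs0 := sr_pos
  have hT0 : 0 < T := by
    have e1 : (0 : ℝ) < p.1 := by linarith
    rw [hP'] at e1
    by_contra hc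
    push Not at hc
    have : 4 * (mm t : ℝ) * T ≤ 0 := mul_nonpos_of_nonneg_of_nonpos (by positivity) hc
    linarith
  have hT1 : T < f * sr := by
    rw [hP', hb] at q2
    exact lt_of_mul_lt_mul_left q2 (by positivity)
  have hT2 : T ^ 2 < 5 * f ^ 2 := by
    have e1 : T ^ 2 < (f * sr) ^ 2 := pow_lt_pow_left₀ hT1 hT0.le (by norm_num)
    have e2 : (f * sr) ^ 2 = 5 * f ^ 2 := by
      linear_combination (f ^ 2) * hs2
    linarith
  have hn : T ^ 2 = 5 * f ^ 2 - 4 * (|(nm y1 : ℝ)| * |(nm y2 : ℝ)|) := by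
    have e1 : (nm y1 : ℝ) * (nm y2 : ℝ) ≤ 0 := by linarith
    rw [← abs_mul, abs_of_nonpos e1]
    linarith
  set n1 : ℝ := |(nm y1 : ℝ)| with hn1
  set n2 : ℝ := |(nm y2 : ℝ)| with hn2
  by_contra hc
  push Not at hc
  unfold xv at hc
  rw [le_div_iff₀ hQr, hQ', hP', hb] at hc
  have hc' : 10 * n1 ≤ T + f * sr := by
    have e1 : (4 * (mm t : ℝ)) * (10 * n1) ≤ (4 * (mm t : ℝ)) * (T + f * sr) := by linarith
    exact le_of_mul_le_mul_left e1 (by positivity)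
  have h12 : f * sr ≤ 2.2361 * f := by nlinarith
  have h13 : 2.164 * f ≤ T := by linarith
  have h14 : (400 / 909 * f) * (400 / 909 * f) ≤ n1 * n2 :=
    mul_le_mul (by linarith) (by linarith) (by positivity) (abs_nonneg _)
  have h15 : (2.164 * f) * (2.164 * f) ≤ T * T :=
    mul_le_mul h13 h13 (by positivity) (by linarith)
  have h16 : 0 < f * f := mul_pos hf hf
  nlinarith

end Pool.Agent.Helper43.KF
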